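import Pool.Agent.Work.MP_f6e869_pe.Interface

/-! # Block CYC: from a path to a cycle through an edge -/

namespace Pool.PE

open SimpleGraph

theorem p_CYC : S_CYC := by
  intro V G u v a b q hq hu hv huv hua hvb
  have ha : a ∈ q.support := q.start_mem_support
  have hb : b ∈ q.support := q.end_mem_support
  have huv' : u ≠ v := huv.ne
  have hr : q.reverse.IsPath := hq.reverse
  have hu' : u ∉ q.reverse.support := by
    rw [Walk.support_reverse, List.mem_reverse]
    exact hu
  have hc : (q.reverse.concat hua.symm).IsPath := hr.concat hu' hua.symm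
  have hv' : v ∉ (q.reverse.concat hua.symm).support := by
    rw [Walk.support_concat, List.mem_append, List.mem_singleton,
      Walk.support_reverse, List.mem_reverse, not_or]
    exact ⟨hv, huv'.symm⟩
  have hp : (Walk.cons hvb (q.reverse.concat hua.symm)).IsPath := by
    rw [Walk.cons_isPath_iff]
    exact ⟨hc, hv'⟩
  have hne : s(u, v) ∉ (Walk.cons hvb (q.reverse.concat hua.symm)).edges := by
    rw [Walk.edges_cons, Walk.edges_concat, List.concat_eq_append, List.mem_cons,
      List.mem_append, List.mem_singleton]
    rintro (h | h | h)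
    · rw [Sym2.eq_iff] at h
      rcases h with ⟨h1, _⟩ | ⟨h1, _⟩
      · exact huv' h1
      · exact hu (h1 ▸ hb)
    · have h1 := Walk.snd_mem_support_of_mem_edges _ h
      rw [Walk.support_reverse, List.mem_reverse] at h1
      exact hv h1
    · rw [Sym2.eq_iff] at h
      rcases h with ⟨h1, _⟩ | ⟨_, h2⟩
      · exact hu (h1 ▸ ha)
      · exact hv (h2 ▸ ha)
  refine ⟨Walk.cons huv (Walk.cons hvb (q.reverse.concat hua.symm)), ?_, ?_, ?_⟩
  · rw [Walk.cons_isCycle_iff]
    exact ⟨hp, hne⟩
  · rw [Walk.length_cons, Walk.length_cons, Walk.length_concat, Walk.length_reverse]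
  · rw [Walk.edges_cons]
    exact List.mem_cons_self

end Pool.PE
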