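import Pool.Agent.Work.MP_f6e869_pe.Interface

namespace Pool.PE

theorem p_DEG : S_DEG := by
  intro V _ G m p u v a hcov
  have hfin : ({j : ℕ | j < m ∧ G.Adj a (p j)}).Finite :=
    (Set.finite_lt_nat m).subset (fun j hj => hj.1)
  have hsub : G.neighborSet a ⊆ (p '' {j : ℕ | j < m ∧ G.Adj a (p j)}) ∪ {u, v} := by
    intro w hw
    rcases hcov w with rfl | rfl | ⟨j, hj, rfl⟩
    · right; simp
    · right; simp
    · left
      exact ⟨j, ⟨hj, hw⟩, rfl⟩
  have hfin2 : ((p '' {j : ℕ | j < m ∧ G.Adj a (p j)}) ∪ {u, v}).Finite := Set.toFinite _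
  unfold dg
  calc (G.neighborSet a).ncard ≤ ((p '' {j : ℕ | j < m ∧ G.Adj a (p j)}) ∪ {u, v}).ncard :=
        Set.ncard_le_ncard hsub hfin2
    _ ≤ (p '' {j : ℕ | j < m ∧ G.Adj a (p j)}).ncard + ({u, v} : Set V).ncard :=
        Set.ncard_union_le _ _
    _ ≤ {j : ℕ | j < m ∧ G.Adj a (p j)}.ncard + 2 :=
        Nat.add_le_add (Set.ncard_image_le hfin) (by
          calc ({u, v} : Set V).ncard ≤ ({v} : Set V).ncard + 1 := Set.ncard_insert_le _ _
            _ ≤ 2 := by simp)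

end Pool.PE
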