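import Pool.Agent.Work.MP_f6e869_pe.Interface

/-! # ORE: closing a path -/

set_option autoImplicit false

namespace Pool.PE

theorem ORE_pig {V : Type} (G : SimpleGraph V) (m : ℕ) (p : ℕ → V) (hm : 3 ≤ m)
    (h : m ≤ {j : ℕ | j < m ∧ G.Adj (p 0) (p j)}.ncard +
      {j : ℕ | j < m ∧ G.Adj (p (m - 1)) (p j)}.ncard) :
    ∃ j, 1 ≤ j ∧ j < m ∧ G.Adj (p 0) (p j) ∧ G.Adj (p (m - 1)) (p (j - 1)) := by
  classical
  by_contra hcon
  push Not at hcon
  set A : Set ℕ := {j : ℕ | j < m ∧ G.Adj (p 0) (p j)} with hA
  set B : Set ℕ := {j : ℕ | j < m ∧ G.Adj (p (m - 1)) (p j)} with hB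
  have hAf : A.Finite := (Set.finite_lt_nat m).subset (fun j hj => hj.1)
  have hBf : B.Finite := (Set.finite_lt_nat m).subset (fun j hj => hj.1)
  have hBc : ((fun j => j + 1) '' B).ncard = B.ncard :=
    Set.ncard_image_of_injective B (fun a b hab => Nat.succ_injective hab)
  have hdis : Disjoint A ((fun j => j + 1) '' B) := by
    rw [Set.disjoint_left]
    rintro j hj ⟨k, hk, hkj⟩
    have hkj' : k + 1 = j := hkj
    refine hcon j (by omega) hj.1 hj.2 ?_
    have : j - 1 = k := by omega
    rw [this]
    exact hk.2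
  have hsub : A ∪ ((fun j => j + 1) '' B) ⊆ (Finset.Icc 1 (m - 1) : Finset ℕ) := by
    rintro j (hj | ⟨k, hk, hkj⟩)
    · rw [Finset.coe_Icc, Set.mem_Icc]
      have h0 : j ≠ 0 := by
        rintro rfl
        exact G.irrefl hj.2
      have := hj.1
      omega
    · have hkj' : k + 1 = j := hkj
      rw [Finset.coe_Icc, Set.mem_Icc]
      have h0 : k ≠ m - 1 := by
        rintro rfl
        exact G.irrefl hk.2
      have := hk.1
      omega
  have h1 := Set.ncard_le_ncard hsub (Finset.finite_toSet _)
  rw [Set.ncard_union_eq hdis hAf (hBf.image _), hBc, Set.ncard_coe_finset, Nat.card_Icc] at h1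
  omega

theorem p_ORE : S_ORE := by
  intro V G m p hm hinj hadj hdeg
  obtain ⟨j, hj1, hjm, hj0, hjl⟩ := ORE_pig G m p hm hdeg
  have hm0 : 0 < m := by omega
  have hlt : ∀ i : ℕ, i % m < m := fun i => Nat.mod_lt _ hm0
  refine ⟨fun i => p (if i % m < j then i % m else m - 1 - (i % m - j)), ⟨?_, ?_, ?_⟩, ?_⟩
  · intro i
    simp only [Nat.add_mod_right]
  · intro a b ha hb hab
    simp only [Nat.mod_eq_of_lt ha, Nat.mod_eq_of_lt hb] at hab
    have h1 := hinj _ _ (by split_ifs <;> omega) (by split_ifs <;> omega) hab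
    split_ifs at h1 <;> omega
  · intro i
    show G.Adj (p (if i % m < j then i % m else m - 1 - (i % m - j)))
      (p (if (i + 1) % m < j then (i + 1) % m else m - 1 - ((i + 1) % m - j)))
    have hr := hlt i
    have hsucc : (i + 1) % m = if i % m + 1 = m then 0 else i % m + 1 := by
      rw [Nat.add_mod]
      split_ifs with h
      · rw [Nat.mod_eq_of_lt (show 1 < m by omega), h, Nat.mod_self]
      · rw [Nat.mod_eq_of_lt (show 1 < m by omega), Nat.mod_eq_of_lt (by omega)]
    rw [hsucc]
    generalize i % m = r at hr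
    by_cases h1 : r + 1 = m
    · rw [if_pos h1, if_neg (by omega), if_pos (by omega)]
      have h2 : m - 1 - (r - j) = j := by omega
      rw [h2]
      exact hj0.symm
    · rw [if_neg h1]
      by_cases h2 : r + 1 < j
      · rw [if_pos (by omega), if_pos h2]
        exact hadj r (by omega)
      · by_cases h3 : r + 1 = j
        · rw [if_pos (by omega), if_neg (by omega)]
          have h4 : m - 1 - (r + 1 - j) = m - 1 := by omega
          have h5 : r = j - 1 := by omega
          rw [h4, h5]
          exact hjl.symm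
        · rw [if_neg (by omega), if_neg h2]
          have h4 : m - 1 - (r - j) = m - 1 - (r + 1 - j) + 1 := by omega
          rw [h4]
          exact (hadj _ (by omega)).symm
  · intro i
    refine ⟨_, ?_, rfl⟩
    have := hlt i
    split_ifs <;> omega

end Pool.PE
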