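import Pool.Agent.Work.MP_f6e869_pe.Interface

/-!
# PIG: pigeonhole on the cycle missing two vertices
-/

namespace Pool.PE

theorem p_PIG : S_PIG := by
  classical
  intro V _ G m x u v hm hV hx huv hxuv hdeg s
  obtain ⟨hper, hinj, hadj⟩ := hx
  have hP : Function.Periodic x m := hper
  have hI : ((Finset.range m).image x).card = m := by
    rw [Finset.card_image_of_injOn, Finset.card_range]
    intro i hi j hj h
    exact hinj i j (Finset.mem_range.1 hi) (Finset.mem_range.1 hj) h
  have hv : v ∉ (Finset.range m).image x := by
    rw [Finset.mem_image]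
    rintro ⟨i, _, h⟩
    exact (hxuv i).2 h
  have hu : u ∉ insert v ((Finset.range m).image x) := by
    rw [Finset.mem_insert, not_or]
    refine ⟨huv, ?_⟩
    rw [Finset.mem_image]
    rintro ⟨i, _, h⟩
    exact (hxuv i).1 h
  have huniv : insert u (insert v ((Finset.range m).image x)) = Finset.univ := by
    apply Finset.eq_univ_of_card
    rw [Finset.card_insert_of_notMem hu, Finset.card_insert_of_notMem hv, hI, hV]
  have hsurj : ∀ w : V, w = u ∨ w = v ∨ ∃ j, j < m ∧ x j = w := by
    intro w
    have := Finset.mem_univ w
    rw [← huniv, Finset.mem_insert, Finset.mem_insert, Finset.mem_image] at this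
    rcases this with h | h | ⟨j, hj, h⟩
    · exact Or.inl h
    · exact Or.inr (Or.inl h)
    · exact Or.inr (Or.inr ⟨j, Finset.mem_range.1 hj, h⟩)
  have hshift : ∀ j, j < m → ∃ i, i < m ∧ x (i + s) = x j := by
    intro j hj
    refine ⟨(j + s * (m - 1)) % m, Nat.mod_lt _ (by omega), ?_⟩
    rw [← hP.map_mod_nat (((j + s * (m - 1)) % m) + s), Nat.mod_add_mod, hP.map_mod_nat]
    have h1 : j + s * (m - 1) + s = j + s * m := by
      obtain ⟨t, rfl⟩ : ∃ t, m = t + 1 := ⟨m - 1, by omega⟩
      rw [Nat.add_sub_cancel]
      ring
    rw [h1, ← hP.map_mod_nat, Nat.add_mul_mod_self_right, hP.map_mod_nat]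
  set A := (Finset.range m).filter (fun i => G.Adj u (x i)) with hA
  set B := (Finset.range m).filter (fun i => G.Adj v (x (i + s))) with hB
  have h1 : dg G u ≤ A.card + 1 := by
    unfold dg
    calc (G.neighborSet u).ncard ≤ ((insert v (A.image x) : Finset V) : Set V).ncard := by
          apply Set.ncard_le_ncard _ (Finset.finite_toSet _)
          intro w hw
          rw [SimpleGraph.mem_neighborSet] at hw
          rw [Finset.mem_coe, Finset.mem_insert, Finset.mem_image]
          rcases hsurj w with h | h | ⟨j, hj, h⟩
          · rw [h] at hw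
            exact absurd rfl (G.ne_of_adj hw)
          · exact Or.inl h
          · refine Or.inr ⟨j, ?_, h⟩
            rw [hA, Finset.mem_filter, Finset.mem_range]
            exact ⟨hj, by rw [h]; exact hw⟩
      _ = (insert v (A.image x)).card := Set.ncard_coe_finset _
      _ ≤ (A.image x).card + 1 := Finset.card_insert_le _ _
      _ ≤ A.card + 1 := Nat.add_le_add_right Finset.card_image_le _
  have h2 : dg G v ≤ B.card + 1 := by
    unfold dg
    calc (G.neighborSet v).ncard ≤
          ((insert u (B.image fun i => x (i + s)) : Finset V) : Set V).ncard := by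
          apply Set.ncard_le_ncard _ (Finset.finite_toSet _)
          intro w hw
          rw [SimpleGraph.mem_neighborSet] at hw
          rw [Finset.mem_coe, Finset.mem_insert, Finset.mem_image]
          rcases hsurj w with h | h | ⟨j, hj, h⟩
          · exact Or.inl h
          · rw [h] at hw
            exact absurd rfl (G.ne_of_adj hw)
          · obtain ⟨i, hi, h'⟩ := hshift j hj
            refine Or.inr ⟨i, ?_, h'.trans h⟩
            rw [hB, Finset.mem_filter, Finset.mem_range]
            exact ⟨hi, by rw [h', h]; exact hw⟩
      _ = (insert u (B.image fun i => x (i + s))).card := Set.ncard_coe_finset _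
      _ ≤ (B.image fun i => x (i + s)).card + 1 := Finset.card_insert_le _ _
      _ ≤ B.card + 1 := Nat.add_le_add_right Finset.card_image_le _
  have h3 : (A ∩ B).Nonempty := by
    by_contra hne
    rw [Finset.not_nonempty_iff_eq_empty, ← Finset.disjoint_iff_inter_eq_empty] at hne
    have h4 := Finset.card_union_of_disjoint hne
    have h5 : (A ∪ B).card ≤ m := by
      calc (A ∪ B).card ≤ (Finset.range m).card :=
            Finset.card_le_card (Finset.union_subset (Finset.filter_subset _ _)
              (Finset.filter_subset _ _))
        _ = m := Finset.card_range m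
    omega
  obtain ⟨i, hi⟩ := h3
  rw [Finset.mem_inter, hA, hB, Finset.mem_filter, Finset.mem_filter] at hi
  exact ⟨i, hi.1.2, hi.2.2⟩

end Pool.PE
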