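import Pool.Agent.Work.MP_f6e869_pe.Interface

set_option autoImplicit false

/-! Block PTH: a path of the graph along the listing. -/

namespace Pool.PE

theorem PTH_aux (V : Type) (G : SimpleGraph V) (m : ℕ) (x : ℕ → V) (i : ℕ) (hx : Cyc G m x) :
    ∀ s : ℕ, s < m → ∃ q : G.Walk (x i) (x (i + s)), q.IsPath ∧ q.length = s ∧
      ∀ w ∈ q.support, ∃ t, t ≤ s ∧ w = x (i + t) := by
  obtain ⟨hper, hinj, hadj⟩ := hx
  have hp : Function.Periodic x m := hper
  intro s
  induction s with
  | zero =>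
    intro _
    refine ⟨SimpleGraph.Walk.nil, SimpleGraph.Walk.IsPath.nil, rfl, ?_⟩
    intro w hw
    refine ⟨0, le_refl 0, ?_⟩
    simpa using hw
  | succ s ih =>
    intro hs
    obtain ⟨q, hq, hl, hsup⟩ := ih (by omega)
    have hm : 0 < m := by omega
    have hnot : x (i + (s + 1)) ∉ q.support := by
      intro h
      obtain ⟨t, ht, h1⟩ := hsup _ h
      rw [← hp.map_mod_nat (i + (s + 1)), ← hp.map_mod_nat (i + t)] at h1
      have h2 := hinj _ _ (Nat.mod_lt _ hm) (Nat.mod_lt _ hm) h1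
      have h3 : (i + t) ≡ (i + (s + 1)) [MOD m] := h2.symm
      have h4 : t ≡ s + 1 [MOD m] := Nat.ModEq.add_left_cancel' i h3
      have h5 : m ∣ (s + 1) - t := (Nat.modEq_iff_dvd' (by omega)).1 h4
      have h6 := Nat.le_of_dvd (by omega) h5
      omega
    refine ⟨q.concat (hadj (i + s)), hq.concat hnot _, ?_, ?_⟩
    · rw [SimpleGraph.Walk.length_concat, hl]
    · intro w hw
      rw [SimpleGraph.Walk.support_concat] at hw
      have hw' : w ∈ q.support ∨ w = x (i + (s + 1)) := by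
        simpa using hw
      rcases hw' with h | h
      · obtain ⟨t, ht, h1⟩ := hsup w h
        exact ⟨t, by omega, h1⟩
      · exact ⟨s + 1, le_refl _, h⟩

theorem p_PTH : S_PTH := by
  intro V G m x i s hx hs
  obtain ⟨q, hq, hl, hsup⟩ := PTH_aux V G m x i hx s hs
  refine ⟨q, hq, hl, fun w hw => ?_⟩
  obtain ⟨t, -, h⟩ := hsup w hw
  exact ⟨i + t, h⟩

end Pool.PE
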