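import Pool.Agent.Work.MP_f6e869_pe.Interface

/-!
# Block CNT: counting
-/

set_option autoImplicit false

namespace Pool.PE

theorem CNT_shift (f : ℕ → ℕ) (n : ℕ) (hf : ∀ i, f (i + n) = f i) (k : ℕ) :
    ∑ i ∈ Finset.range n, f (i + k) = ∑ i ∈ Finset.range n, f i := by
  induction k with
  | zero => rfl
  | succ k ih =>
    rw [← ih]
    have h1 := Finset.sum_range_succ (fun i => f (i + k)) n
    have h2 := Finset.sum_range_succ' (fun i => f (i + k)) n
    beta_reduce at h1 h2
    have h3 : f (n + k) = f (0 + k) := by rw [add_comm n k, hf, zero_add]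
    have h4 : ∑ i ∈ Finset.range n, f (i + 1 + k) = ∑ i ∈ Finset.range n, f (i + (k + 1)) := by
      refine Finset.sum_congr rfl fun i _ => ?_
      congr 1
      omega
    omega

theorem CNT_sum {V : Type} [Fintype V] [DecidableEq V] (G : SimpleGraph V) :
    ∑ v : V, dg G v = 2 * G.edgeSet.ncard := by
  classical
  have h := G.sum_degrees_eq_twice_card_edges
  have h1 : ∀ v : V, dg G v = G.degree v := by
    intro v
    unfold dg
    rw [Set.ncard_eq_toFinset_card']
    rfl
  have h2 : G.edgeSet.ncard = G.edgeFinset.card := by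
    rw [Set.ncard_eq_toFinset_card']
    rfl
  rw [h2, ← h]
  exact Finset.sum_congr rfl fun v _ => h1 v

theorem CNT_le {V : Type} [Fintype V] [DecidableEq V] (G : SimpleGraph V) (v : V) :
    dg G v + 1 ≤ Fintype.card V := by
  classical
  have h1 : dg G v = G.degree v := by
    unfold dg
    rw [Set.ncard_eq_toFinset_card']
    rfl
  rw [h1]
  exact G.degree_lt_card_verts v

theorem p_CNT : S_CNT := by
  classical
  intro V _ _ G c hn hc hd
  obtain ⟨hper, hinj, -⟩ := hc
  have h1 : (Finset.range (Fintype.card V)).image c = Finset.univ := by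
    apply Finset.eq_univ_of_card
    rw [Finset.card_image_of_injOn, Finset.card_range]
    intro i hi j hj hij
    exact hinj i j (Finset.mem_range.1 (Finset.mem_coe.1 hi)) (Finset.mem_range.1 (Finset.mem_coe.1 hj)) hij
  have h2 : ∑ i ∈ Finset.range (Fintype.card V), dg G (c i) = 2 * G.edgeSet.ncard := by
    rw [← CNT_sum G, ← h1, Finset.sum_image]
    intro i hi j hj hij
    exact hinj i j (Finset.mem_range.1 (Finset.mem_coe.1 hi)) (Finset.mem_range.1 (Finset.mem_coe.1 hj)) hij
  have hs : ∀ k, ∑ i ∈ Finset.range (Fintype.card V), dg G (c (i + k)) = 2 * G.edgeSet.ncard := by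
    intro k
    rw [← h2]
    exact CNT_shift (fun i => dg G (c i)) (Fintype.card V) (fun i => by rw [hper]) k
  have h3 : ∀ i ∈ Finset.range (Fintype.card V), dg G (c (i + 1)) + dg G (c (i + 2)) +
      (dg G (c i) + dg G (c (i + 3))) + 1 ≤ 3 * Fintype.card V := by
    intro i _
    have a0 := CNT_le G (c i)
    have a1 := CNT_le G (c (i + 1))
    have a2 := CNT_le G (c (i + 2))
    have a3 := CNT_le G (c (i + 3))
    rcases hd i with h | h <;> omega
  have h4 := Finset.sum_le_sum h3
  rw [Finset.sum_add_distrib, Finset.sum_add_distrib, Finset.sum_add_distrib, Finset.sum_add_distrib,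
    hs 1, hs 2, hs 3, h2, Finset.sum_const, Finset.sum_const, Finset.card_range, smul_eq_mul, smul_eq_mul] at h4
  nlinarith [h4]

end Pool.PE
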