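import Pool.Agent.Work.MP_f6e869_pe.Interface

/-!
# Block HC: from Mathlib hamiltonicity to a periodic listing
-/

namespace Pool.PE

/-- HC: from Mathlib hamiltonicity to a periodic listing. -/
theorem p_HC : S_HC := by
  intro V _ _ G hV hG
  obtain ⟨a, p, hp⟩ := hG (by omega)
  have hlen : p.length = Fintype.card V := hp.length_eq
  have hmod : ∀ i, i % Fintype.card V < Fintype.card V := fun i => Nat.mod_lt _ (by omega)
  refine ⟨fun i => p.getVert (i % Fintype.card V), fun i => ?_, fun i j hi hj hij => ?_,
    fun i => ?_⟩
  · show p.getVert ((i + Fintype.card V) % Fintype.card V) = _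
    rw [Nat.add_mod_right]
  · have h1 : p.getVert i = p.getVert j := by
      have h2 : p.getVert (i % Fintype.card V) = p.getVert (j % Fintype.card V) := hij
      rwa [Nat.mod_eq_of_lt hi, Nat.mod_eq_of_lt hj] at h2
    apply hp.isCycle.getVert_injOn' _ _ h1
    · show i ≤ p.length - 1
      omega
    · show j ≤ p.length - 1
      omega
  · show G.Adj (p.getVert (i % Fintype.card V)) (p.getVert ((i + 1) % Fintype.card V))
    have h1 := p.adj_getVert_succ (i := i % Fintype.card V) (by rw [hlen]; exact hmod i)
    rcases Nat.lt_or_ge (i % Fintype.card V + 1) (Fintype.card V) with h | h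
    · have h2 : (i + 1) % Fintype.card V = i % Fintype.card V + 1 := by
        rw [Nat.add_mod, Nat.mod_eq_of_lt (show 1 < Fintype.card V by omega),
          Nat.mod_eq_of_lt h]
      rw [h2]
      exact h1
    · have h3 : i % Fintype.card V + 1 = Fintype.card V := by
        have := hmod i
        omega
      have h2 : (i + 1) % Fintype.card V = 0 := by
        rw [Nat.add_mod, Nat.mod_eq_of_lt (show 1 < Fintype.card V by omega), h3, Nat.mod_self]
      rw [h2]
      have h4 : p.getVert 0 = p.getVert (i % Fintype.card V + 1) := by
        rw [h3, ← hlen, SimpleGraph.Walk.getVert_length, SimpleGraph.Walk.getVert_zero]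
      rw [h4]
      exact h1

end Pool.PE
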