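import Pool.Agent.Work.MP_f6e869_pe.Interface

namespace Pool.PE

theorem CNTx_shift (n : ℕ) (f : ℕ → ℕ) (hf : ∀ i, f (i + n) = f i) (k : ℕ) :
    ∑ i ∈ Finset.range n, f (i + k) = ∑ i ∈ Finset.range n, f i := by
  induction k with
  | zero => simp
  | succ k ih =>
    have h1 := Finset.sum_range_succ (fun i => f (i + k)) n
    have h2 := Finset.sum_range_succ' (fun i => f (i + k)) n
    have h3 : f (n + k) = f (0 + k) := by
      rw [Nat.add_comm n k, hf, Nat.zero_add]
    have h4 : ∑ i ∈ Finset.range n, f (i + (k + 1)) = ∑ i ∈ Finset.range n, f (i + 1 + k) := by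
      apply Finset.sum_congr rfl
      intro i _
      congr 1
      omega
    rw [h4]
    have h5 := ih
    omega

theorem p_CNTx : S_CNT := by
  intro V _ _ G c hn hc hor
  classical
  obtain ⟨n, hn'⟩ : ∃ n, Fintype.card V = n := ⟨_, rfl⟩
  rw [hn'] at hn hc hor ⊢
  obtain ⟨hper, hinj, hadj⟩ := hc
  have hdeg : ∀ v, dg G v = G.degree v := by
    intro v
    unfold dg
    rw [Set.ncard_eq_toFinset_card']
    rfl
  have hlt : ∀ v, dg G v + 1 ≤ n := by
    intro v
    rw [hdeg, ← hn']
    exact G.degree_lt_card_verts v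
  have hbij : Function.Bijective (fun i : Fin n => c i) := by
    rw [Fintype.bijective_iff_injective_and_card]
    refine ⟨?_, by rw [Fintype.card_fin, hn']⟩
    intro i j h
    exact Fin.ext (hinj i j i.2 j.2 h)
  have hsum : ∑ i ∈ Finset.range n, dg G (c i) = 2 * G.edgeSet.ncard := by
    rw [← Fin.sum_univ_eq_sum_range (fun i => dg G (c i)) n]
    have h1 : ∑ i : Fin n, dg G (c i) = ∑ v, dg G v :=
      Fintype.sum_bijective _ hbij _ _ (fun i => rfl)
    rw [h1]
    have h2 : ∑ v, dg G v = ∑ v, G.degree v := Finset.sum_congr rfl (fun v _ => hdeg v)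
    rw [h2, G.sum_degrees_eq_twice_card_edges]
    congr 1
    rw [Set.ncard_eq_toFinset_card']
    rfl
  set d : ℕ → ℕ := fun i => dg G (c i) with hd
  have hdper : ∀ i, d (i + n) = d i := by
    intro i
    simp only [hd]
    rw [hper]
  have e1 := CNTx_shift n d hdper 1
  have e2 := CNTx_shift n d hdper 2
  have e3 := CNTx_shift n d hdper 3
  have hall : ∑ i ∈ Finset.range n, ((d (i + 1) + d (i + 2)) + (d i + d (i + 3)) + 1) ≤
      ∑ i ∈ Finset.range n, 3 * n := by
    apply Finset.sum_le_sum
    intro i _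
    have l0 := hlt (c i)
    have l1 := hlt (c (i + 1))
    have l2 := hlt (c (i + 2))
    have l3 := hlt (c (i + 3))
    have h := hor i
    simp only [hd]
    omega
  rw [Finset.sum_add_distrib, Finset.sum_add_distrib, Finset.sum_add_distrib,
    Finset.sum_add_distrib, e1, e2, e3] at hall
  simp only [Finset.sum_const, Finset.card_range, smul_eq_mul, mul_one] at hall
  have hs' : ∑ i ∈ Finset.range n, d i = 2 * G.edgeSet.ncard := hsum
  rw [hs'] at hall
  nlinarith

end Pool.PE
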