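import Pool.Agent.Work.MP_f6e869_pe.Interface

/-!
# Block HC (second copy)
-/

set_option autoImplicit false

namespace Pool.PE

theorem p_HCx : S_HC := by
  intro V _ _ G hn hG
  obtain ⟨a, p, hp⟩ := hG (by omega)
  have hlen : p.length = Fintype.card V := hp.length_eq
  have hcyc : p.IsCycle := hp.isCycle
  refine ⟨fun i => p.getVert (i % Fintype.card V), fun i => ?_, fun i j hi hj h => ?_, fun i => ?_⟩
  · simp only [Nat.add_mod_right]
  · simp only [Nat.mod_eq_of_lt hi, Nat.mod_eq_of_lt hj] at h
    exact hcyc.getVert_injOn' (by simp only [Set.mem_setOf_eq]; omega)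
      (by simp only [Set.mem_setOf_eq]; omega) h
  · have hr : i % Fintype.card V < Fintype.card V := Nat.mod_lt _ (by omega)
    have hadj := p.adj_getVert_succ (i := i % Fintype.card V) (by omega)
    have hsucc : p.getVert ((i + 1) % Fintype.card V) = p.getVert (i % Fintype.card V + 1) := by
      by_cases h : i % Fintype.card V + 1 < Fintype.card V
      · congr 1
        rw [Nat.add_mod, Nat.mod_eq_of_lt (show 1 < Fintype.card V by omega), Nat.mod_eq_of_lt h]
      · have h1 : i % Fintype.card V + 1 = Fintype.card V := by omega
        have h2 : (i + 1) % Fintype.card V = 0 := by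
          rw [Nat.add_mod, Nat.mod_eq_of_lt (show 1 < Fintype.card V by omega), h1, Nat.mod_self]
        rw [h1, h2, ← hlen, p.getVert_length, p.getVert_zero]
    simp only [hsucc]
    exact hadj

end Pool.PE
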