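import Pool.Agent.Work.MP_f6e869_pe.Interface

namespace Pool.PE

/-- the rotated order -/
def OREx_s (m j r : ℕ) : ℕ := if r < j then r else m - 1 - (r - j)

theorem p_OREx : S_ORE := by
  intro V G m p hm hinj hadj hcard
  classical
  set A : Set ℕ := {j : ℕ | j < m ∧ G.Adj (p 0) (p j)} with hA
  set B : Set ℕ := {j : ℕ | j < m ∧ G.Adj (p (m - 1)) (p j)} with hB
  set B' : Set ℕ := (fun j => j + 1) '' B with hB'
  have hBc : B'.ncard = B.ncard := by
    rw [hB']
    exact Set.ncard_image_of_injective B (fun a b h => by simpa using h)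
  have hI : (Finset.Icc 1 (m - 1) : Set ℕ).ncard = m - 1 := by
    rw [Set.ncard_coe_finset, Nat.card_Icc]
    omega
  have hAs : A ⊆ (Finset.Icc 1 (m - 1) : Set ℕ) := by
    intro j hj
    have h0 : j ≠ 0 := by
      rintro rfl
      exact G.loopless.irrefl _ hj.2
    have := hj.1
    simp only [Finset.coe_Icc, Set.mem_Icc]
    omega
  have hBs : B' ⊆ (Finset.Icc 1 (m - 1) : Set ℕ) := by
    rintro _ ⟨j, hj, rfl⟩
    have h0 : j ≠ m - 1 := by
      rintro rfl
      exact G.loopless.irrefl _ hj.2
    have := hj.1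
    simp only [Finset.coe_Icc, Set.mem_Icc]
    omega
  have hne : (A ∩ B').Nonempty := by
    by_contra hc
    have hdis : Disjoint A B' := by
      rw [Set.disjoint_iff_inter_eq_empty]
      exact Set.not_nonempty_iff_eq_empty.mp hc
    have hfinI : (Finset.Icc 1 (m - 1) : Set ℕ).Finite := Finset.finite_toSet _
    have h1 := Set.ncard_union_eq hdis (hfinI.subset hAs) (hfinI.subset hBs)
    have h2 := Set.ncard_le_ncard (Set.union_subset hAs hBs) hfinI
    omega
  obtain ⟨j, hjA, i0, hi0, hij⟩ := hne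
  have hij' : i0 + 1 = j := hij
  have hj1 : j < m := hjA.1
  have hj0 : 1 ≤ j := by omega
  have hpj : G.Adj (p 0) (p j) := hjA.2
  have hpi : G.Adj (p (m - 1)) (p i0) := hi0.2
  have hs : ∀ r, r < m → OREx_s m j r < m := by
    intro r hr
    unfold OREx_s
    split_ifs <;> omega
  have hstep : ∀ r, r < m → r + 1 < m → G.Adj (p (OREx_s m j r)) (p (OREx_s m j (r + 1))) := by
    intro r hr hr1
    rcases lt_trichotomy (r + 1) j with h | h | h
    · have e1 : OREx_s m j r = r := by unfold OREx_s; rw [if_pos (by omega)]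
      have e2 : OREx_s m j (r + 1) = r + 1 := by unfold OREx_s; rw [if_pos (by omega)]
      rw [e1, e2]
      exact hadj r hr1
    · have e1 : OREx_s m j r = i0 := by unfold OREx_s; rw [if_pos (by omega)]; omega
      have e2 : OREx_s m j (r + 1) = m - 1 := by unfold OREx_s; rw [if_neg (by omega)]; omega
      rw [e1, e2]
      exact hpi.symm
    · obtain ⟨a, ha⟩ : ∃ a, OREx_s m j (r + 1) = a := ⟨_, rfl⟩
      have e1 : OREx_s m j r = a + 1 := by
        unfold OREx_s at ha ⊢
        rw [if_neg (by omega)] at ha ⊢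
        omega
      have e3 : a + 1 < m := by
        rw [← e1]
        exact hs r hr
      rw [ha, e1]
      exact (hadj a e3).symm
  have hlast : G.Adj (p (OREx_s m j (m - 1))) (p (OREx_s m j 0)) := by
    have e1 : OREx_s m j (m - 1) = j := by unfold OREx_s; rw [if_neg (by omega)]; omega
    have e2 : OREx_s m j 0 = 0 := by unfold OREx_s; rw [if_pos (by omega)]
    rw [e1, e2]
    exact hpj.symm
  refine ⟨fun i => p (OREx_s m j (i % m)), ⟨?_, ?_, ?_⟩, ?_⟩
  · intro i
    show p (OREx_s m j ((i + m) % m)) = p (OREx_s m j (i % m))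
    rw [Nat.add_mod_right]
  · intro a b ha hb h
    have h' : p (OREx_s m j (a % m)) = p (OREx_s m j (b % m)) := h
    rw [Nat.mod_eq_of_lt ha, Nat.mod_eq_of_lt hb] at h'
    have h2 := hinj _ _ (hs a ha) (hs b hb) h'
    unfold OREx_s at h2
    split_ifs at h2 <;> omega
  · intro i
    show G.Adj (p (OREx_s m j (i % m))) (p (OREx_s m j ((i + 1) % m)))
    have hr : i % m < m := Nat.mod_lt _ (by omega)
    have h1 : (i + 1) % m = (i % m + 1) % m := (Nat.mod_add_mod i m 1).symm
    rw [h1]
    by_cases h : i % m + 1 < m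
    · rw [Nat.mod_eq_of_lt h]
      exact hstep _ hr h
    · have h2 : i % m = m - 1 := by omega
      have h3 : (m - 1 + 1) % m = 0 := by
        rw [Nat.sub_add_cancel (by omega)]
        exact Nat.mod_self m
      rw [h2, h3]
      exact hlast
  · intro i
    exact ⟨OREx_s m j (i % m), hs _ (Nat.mod_lt _ (by omega)), rfl⟩

end Pool.PE
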