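import Pool.Agent.Work.MP_f6e869_pe.Interface

/-!
# Block PIG (second copy)
-/

set_option autoImplicit false

namespace Pool.PE

open Finset in
theorem p_PIGx : S_PIG := by
  classical
  intro V _ G m x u v hm hcard hx huv hne hdeg s
  obtain ⟨hper, hinj, -⟩ := hx
  have hp : Function.Periodic x m := hper
  have hcover : ∀ w : V, w = u ∨ w = v ∨ ∃ i, i < m ∧ x i = w := by
    have h1 : ((range m).image x).card = m := by
      rw [card_image_of_injOn, card_range]
      intro i hi j hj h
      exact hinj i j (mem_range.1 (mem_coe.1 hi)) (mem_range.1 (mem_coe.1 hj)) h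
    have h2 : insert u (insert v ((range m).image x)) = (univ : Finset V) := by
      rw [← card_eq_iff_eq_univ, card_insert_of_notMem, card_insert_of_notMem, h1, hcard]
      · simp only [mem_image, not_exists, not_and]
        exact fun i _ => (hne i).2
      · simp only [mem_insert, mem_image, not_or, not_exists, not_and]
        exact ⟨huv, fun i _ => (hne i).1⟩
    intro w
    have h3 : w ∈ insert u (insert v ((range m).image x)) := by
      rw [h2]
      exact mem_univ w
    simp only [mem_insert, mem_image, mem_range] at h3
    exact h3
  by_contra hcon
  push Not at hcon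
  set A := (range m).filter fun i => G.Adj u (x i) with hA
  set B := (range m).filter fun i => G.Adj v (x (i + s)) with hB
  have hdisj : Disjoint A B := by
    rw [disjoint_left]
    intro i hi hi'
    exact hcon i (mem_filter.1 hi).2 (mem_filter.1 hi').2
  have hAB : A.card + B.card ≤ m := by
    rw [← card_union_of_disjoint hdisj]
    calc (A ∪ B).card ≤ (range m).card :=
          card_le_card (union_subset (filter_subset _ _) (filter_subset _ _))
      _ = m := card_range m
  have hu : dg G u ≤ A.card + 1 := by
    have h1 : G.neighborSet u ⊆ ((insert v (A.image x) : Finset V) : Set V) := by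
      intro w hw
      have hw' : G.Adj u w := hw
      rcases hcover w with h | h | ⟨i, hi, rfl⟩
      · rw [h] at hw'
        exact absurd hw' (G.irrefl)
      · simp [h]
      · simp only [coe_insert, Set.mem_insert_iff, mem_coe, mem_image]
        exact Or.inr ⟨i, mem_filter.2 ⟨mem_range.2 hi, hw'⟩, rfl⟩
    calc dg G u ≤ ((insert v (A.image x) : Finset V) : Set V).ncard :=
          Set.ncard_le_ncard h1 (finite_toSet _)
      _ = (insert v (A.image x)).card := Set.ncard_coe_finset _
      _ ≤ (A.image x).card + 1 := card_insert_le _ _
      _ ≤ A.card + 1 := by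
          have := card_image_le (s := A) (f := x)
          omega
  have hv : dg G v ≤ B.card + 1 := by
    have h1 : G.neighborSet v ⊆
        ((insert u (B.image fun i => x (i + s)) : Finset V) : Set V) := by
      intro w hw
      have hw' : G.Adj v w := hw
      rcases hcover w with h | h | ⟨j, hj, rfl⟩
      · simp [h]
      · rw [h] at hw'
        exact absurd hw' (G.irrefl)
      · have h2 : x ((j + (m - 1) * s) % m + s) = x j := by
          rw [← hp.map_mod_nat ((j + (m - 1) * s) % m + s), ← hp.map_mod_nat j, Nat.mod_add_mod]
          congr 1
          have h3 : j + (m - 1) * s + s = j + m * s := by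
            obtain ⟨m', rfl⟩ : ∃ m', m = m' + 1 := ⟨m - 1, by omega⟩
            simp only [Nat.add_sub_cancel]
            ring
          rw [h3, Nat.add_mul_mod_self_left]
        simp only [coe_insert, Set.mem_insert_iff, mem_coe, mem_image]
        refine Or.inr ⟨(j + (m - 1) * s) % m, mem_filter.2 ⟨mem_range.2 (Nat.mod_lt _ hm), ?_⟩, h2⟩
        rw [h2]
        exact hw'
    calc dg G v ≤ ((insert u (B.image fun i => x (i + s)) : Finset V) : Set V).ncard :=
          Set.ncard_le_ncard h1 (finite_toSet _)
      _ = (insert u (B.image fun i => x (i + s))).card := Set.ncard_coe_finset _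
      _ ≤ (B.image fun i => x (i + s)).card + 1 := card_insert_le _ _
      _ ≤ B.card + 1 := by
          have := card_image_le (s := B) (f := fun i => x (i + s))
          omega
  omega

end Pool.PE
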