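import Mathlib

/-!
MP_f6e869_co : a hamiltonian graph of order n at least 5 with more than (3 n^2 - n)/8 edges has a
pancyclic edge.  Interface (statements S_... of the blocks) by helper82.
-/

namespace Pool.PE

/-- c lists a cycle of length m of G, periodically: c 0, c 1, ..., c (m-1), back to c 0. -/
def Cyc {V : Type} (G : SimpleGraph V) (m : ℕ) (c : ℕ → V) : Prop :=
  (∀ i, c (i + m) = c i) ∧ (∀ i j, i < m → j < m → c i = c j → i = j) ∧
    ∀ i, G.Adj (c i) (c (i + 1))

/-- Degree. -/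
noncomputable def dg {V : Type} (G : SimpleGraph V) (v : V) : ℕ := (G.neighborSet v).ncard

/-- HC: from Mathlib hamiltonicity to a periodic listing.  (The listing is p.getVert (i % n) of
the Hamiltonian cycle p of length n.) -/
def S_HC : Prop := ∀ (V : Type) [Fintype V] [DecidableEq V] (G : SimpleGraph V),
  3 ≤ Fintype.card V → G.IsHamiltonian → ∃ c : ℕ → V, Cyc G (Fintype.card V) c

/-- CNT: counting.  Put d i = dg G (c i), n = card V.  The sum over a period of d is 2 e(G) (c is a
bijection from range n onto V), so the sum over i < n of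
(d (i+1) + d (i+2)) + (d i + d (i+3)) is 8 e(G); each summand is at most 3 n - 1
since d i + d j is at most 2 n - 2. -/
def S_CNT : Prop := ∀ (V : Type) [Fintype V] [DecidableEq V] (G : SimpleGraph V) (c : ℕ → V),
  1 ≤ Fintype.card V → Cyc G (Fintype.card V) c →
  (∀ i, dg G (c (i + 1)) + dg G (c (i + 2)) ≤ Fintype.card V ∨
    dg G (c i) + dg G (c (i + 3)) ≤ Fintype.card V + 1) →
  8 * G.edgeSet.ncard + Fintype.card V ≤ 3 * Fintype.card V ^ 2

/-- ORE: closing a path p 0, ..., p (m-1).  Pigeonhole: A = {j | p 0 ~ p j} and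
B + 1 = {j + 1 | p (m-1) ~ p j} are both in [1, m-1], so some j has p 0 ~ p j and
p (m-1) ~ p (j-1); x i for r = i % m is p r if r < j and p (m - 1 - (r - j)) otherwise. -/
def S_ORE : Prop := ∀ (V : Type) (G : SimpleGraph V) (m : ℕ) (p : ℕ → V), 3 ≤ m →
  (∀ i j, i < m → j < m → p i = p j → i = j) → (∀ i, i + 1 < m → G.Adj (p i) (p (i + 1))) →
  m ≤ {j : ℕ | j < m ∧ G.Adj (p 0) (p j)}.ncard +
      {j : ℕ | j < m ∧ G.Adj (p (m - 1)) (p j)}.ncard →
  ∃ x : ℕ → V, Cyc G m x ∧ ∀ i, ∃ j, j < m ∧ x i = p j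

/-- DEG: if V is u, v and the p j (j < m), a vertex a has at least dg a - 2 neighbours among
the p j. -/
def S_DEG : Prop := ∀ (V : Type) [Fintype V] (G : SimpleGraph V) (m : ℕ) (p : ℕ → V) (u v a : V),
  (∀ w : V, w = u ∨ w = v ∨ ∃ j, j < m ∧ w = p j) →
  dg G a ≤ {j : ℕ | j < m ∧ G.Adj a (p j)}.ncard + 2

/-- PIG: a cycle x of length m missing exactly u and v, with large degree sum: for every shift s
some x i is adjacent to u with x (i + s) adjacent to v.  (At least dg u - 1 indices i < m have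
u ~ x i, at least dg v - 1 indices i < m have v ~ x (i + s), the sum is at least m + 1.
V has m + 2 elements: u, v and the x i, i < m.) -/
def S_PIG : Prop := ∀ (V : Type) [Fintype V] (G : SimpleGraph V) (m : ℕ) (x : ℕ → V) (u v : V),
  1 ≤ m → Fintype.card V = m + 2 → Cyc G m x → u ≠ v → (∀ i, x i ≠ u ∧ x i ≠ v) →
  m + 3 ≤ dg G u + dg G v → ∀ s : ℕ, ∃ i, G.Adj u (x i) ∧ G.Adj v (x (i + s))

/-- PTH: a path of the graph along the listing x (induction on s, support = the x (i + t),
t at most s; injective because s < m). -/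
def S_PTH : Prop := ∀ (V : Type) (G : SimpleGraph V) (m : ℕ) (x : ℕ → V) (i s : ℕ),
  Cyc G m x → s < m → ∃ q : G.Walk (x i) (x (i + s)), q.IsPath ∧ q.length = s ∧
    ∀ w ∈ q.support, ∃ t, w = x t

/-- CYC: from a path q from a to b avoiding u and v to a cycle through the edge uv: the walk
u, v, b, ..., a, u (q reversed), of length q.length + 3. -/
def S_CYC : Prop := ∀ (V : Type) (G : SimpleGraph V) (u v a b : V) (q : G.Walk a b),
  q.IsPath → u ∉ q.support → v ∉ q.support → G.Adj u v → G.Adj u a → G.Adj v b →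
  ∃ w : G.Walk u u, w.IsCycle ∧ w.length = q.length + 3 ∧ s(u, v) ∈ w.edges

/-- The theorem. -/
def S_FIN : Prop := ∀ (V : Type) [Fintype V] [DecidableEq V] (G : SimpleGraph V),
  5 ≤ Fintype.card V → G.IsHamiltonian →
  3 * Fintype.card V ^ 2 < 8 * G.edgeSet.ncard + Fintype.card V →
  ∃ u v : V, G.Adj u v ∧ ∀ k, 3 ≤ k → k ≤ Fintype.card V →
    ∃ w : G.Walk u u, w.IsCycle ∧ w.length = k ∧ s(u, v) ∈ w.edges

end Pool.PE
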