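import Pool.Agent.Work.MP_f6e869_pe.Interface

namespace Pool.PE

theorem FIN_per {V : Type} {G : SimpleGraph V} {m : ℕ} {c : ℕ → V} (hc : Cyc G m c) (i k : ℕ) :
    c (i + m * k) = c i := by
  induction k with
  | zero => simp
  | succ k ih =>
    have h : i + m * (k + 1) = (i + m * k) + m := by ring
    rw [h, hc.1, ih]

theorem FIN_mod {V : Type} {G : SimpleGraph V} {m : ℕ} {c : ℕ → V} (hc : Cyc G m c) (a : ℕ) :
    c (a % m) = c a := by
  conv_rhs => rw [← Nat.mod_add_div a m]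
  rw [FIN_per hc]

theorem FIN_inj {V : Type} {G : SimpleGraph V} {m : ℕ} {c : ℕ → V} (hc : Cyc G m c) (hm : 0 < m)
    (a b : ℕ) (h : c a = c b) : a ≡ b [MOD m] := by
  rw [← FIN_mod hc a, ← FIN_mod hc b] at h
  exact hc.2.1 _ _ (Nat.mod_lt _ hm) (Nat.mod_lt _ hm) h

theorem fin (hHC : S_HC) (hCNT : S_CNT) (hORE : S_ORE) (hDEG : S_DEG) (hPIG : S_PIG)
    (hPTH : S_PTH) (hCYC : S_CYC) : S_FIN := by
  intro V _ _ G hn hH he
  obtain ⟨c, hc⟩ := hHC V G (by omega) hH
  obtain ⟨i, hf, hg⟩ : ∃ i, Fintype.card V + 1 ≤ dg G (c (i + 1)) + dg G (c (i + 2)) ∧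
      Fintype.card V + 2 ≤ dg G (c i) + dg G (c (i + 3)) := by
    by_contra hcon
    push Not at hcon
    have := hCNT V G c (by omega) hc (fun i => by
      by_cases h1 : dg G (c (i + 1)) + dg G (c (i + 2)) ≤ Fintype.card V
      · exact Or.inl h1
      · right
        have := hcon i (by omega)
        omega)
    omega
  obtain ⟨m, hm⟩ : ∃ m, Fintype.card V = m + 2 := ⟨Fintype.card V - 2, by omega⟩
  have hm3 : 3 ≤ m := by omega
  rw [hm] at hc hf hg
  have hcov : ∀ w : V, w = c (i + 1) ∨ w = c (i + 2) ∨ ∃ j, j < m ∧ w = c (i + 3 + j) := by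
    have hinj : Function.Injective (fun r : Fin (m + 2) => c (i + 1 + r)) := by
      intro a b hab
      have h1 := FIN_inj hc (by omega) _ _ hab
      have h2 := Nat.ModEq.add_left_cancel' _ h1
      exact Fin.ext (Nat.ModEq.eq_of_lt_of_lt h2 a.2 b.2)
    have hbij := (Fintype.bijective_iff_injective_and_card _).2
      ⟨hinj, by rw [Fintype.card_fin, hm]⟩
    intro w
    obtain ⟨r, hr⟩ := hbij.2 w
    obtain ⟨r, hr'⟩ := r
    simp only at hr
    rcases r with _ | _ | r
    · left; rw [← hr]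
    · right; left; rw [← hr]
    · right; right
      exact ⟨r, by omega, by rw [← hr]; congr 1; omega⟩
  have hpinj : ∀ a b, a < m → b < m → c (i + 3 + a) = c (i + 3 + b) → a = b := by
    intro a b ha hb hab
    have h1 := FIN_inj hc (by omega) _ _ hab
    have h2 := Nat.ModEq.add_left_cancel' _ h1
    exact Nat.ModEq.eq_of_lt_of_lt h2 (by omega) (by omega)
  have hlast : c (i + 3 + (m - 1)) = c i := by
    have h : i + 3 + (m - 1) = i + (m + 2) := by omega
    rw [h, hc.1]
  have hA := hDEG V G m (fun j => c (i + 3 + j)) (c (i + 1)) (c (i + 2)) (c (i + 3)) hcov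
  have hB := hDEG V G m (fun j => c (i + 3 + j)) (c (i + 1)) (c (i + 2)) (c i) hcov
  obtain ⟨x, hx, hxp⟩ := hORE V G m (fun j => c (i + 3 + j)) hm3 hpinj
    (fun a _ => by
      have := hc.2.2 (i + 3 + a)
      simpa [add_assoc] using this)
    (by
      simp only [hlast, add_zero]
      omega)
  have hxu : ∀ t, x t ≠ c (i + 1) ∧ x t ≠ c (i + 2) := by
    intro t
    obtain ⟨j, hj, hxj⟩ := hxp t
    constructor
    · intro h
      rw [hxj] at h
      have h1 : i + 1 + (2 + j) ≡ i + 1 + 0 [MOD m + 2] := by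
        have := FIN_inj hc (by omega) _ _ h
        have e : i + 1 + (2 + j) = i + 3 + j := by omega
        rw [e]; simpa using this
      have h2 := Nat.ModEq.eq_of_lt_of_lt (Nat.ModEq.add_left_cancel' _ h1) (by omega) (by omega)
      omega
    · intro h
      rw [hxj] at h
      have h1 : i + 2 + (1 + j) ≡ i + 2 + 0 [MOD m + 2] := by
        have := FIN_inj hc (by omega) _ _ h
        have e : i + 2 + (1 + j) = i + 3 + j := by omega
        rw [e]; simpa using this
      have h2 := Nat.ModEq.eq_of_lt_of_lt (Nat.ModEq.add_left_cancel' _ h1) (by omega) (by omega)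
      omega
  have hadj : G.Adj (c (i + 1)) (c (i + 2)) := hc.2.2 (i + 1)
  refine ⟨c (i + 1), c (i + 2), hadj, fun k hk3 hkn => ?_⟩
  obtain ⟨t, hut, hvt⟩ := hPIG V G m x (c (i + 1)) (c (i + 2)) (by omega) hm hx hadj.ne hxu
    (by omega) (k - 3)
  obtain ⟨q, hq, hql, hqs⟩ := hPTH V G m x t (k - 3) hx (by omega)
  obtain ⟨w, hw, hwl, hwe⟩ := hCYC V G (c (i + 1)) (c (i + 2)) _ _ q hq
    (fun h => by
      obtain ⟨t', ht'⟩ := hqs _ h
      exact (hxu t').1 ht'.symm)
    (fun h => by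
      obtain ⟨t', ht'⟩ := hqs _ h
      exact (hxu t').2 ht'.symm) hadj hut hvt
  exact ⟨w, hw, by rw [hwl, hql]; omega, hwe⟩

end Pool.PE
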